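import Pool.Agent.Helper96.Q2Asm
import Pool.Agent.Helper96.Asym

open Finset MeasureTheory Filter Topology

namespace Pool.Agent.Results.MP_21207b_pr.OrderNearOneThird

open Pool.Agent.Helper96

/-- The order of magnitude
`f(n,p) = p⁻¹ max ( (1/6) log n - (1/2) n p³ , log (2 + n^{1/3} p) )`. -/
noncomputable def order (n : ℕ) (p : ℝ) : ℝ :=
  1 / p * max (1 / 6 * Real.log n - 1 / 2 * (n * p ^ 3))
    (Real.log (2 + (n : ℝ) ^ (1 / 3 : ℝ) * p))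

/-- For fixed `n`, `p` in the range the failure probability is at most `12/n`. -/
theorem core {n : ℕ} {p : ℝ} (hp0 : 0 < p) (hlog : 30000 ≤ Real.log n)
    (hw : 3 * (Real.log n) ^ 2 ≤ (n : ℝ) ^ (1 / 6 : ℝ))
    (hx : 1 / 3 ≤ (n : ℝ) ^ (1 / 3 : ℝ) * p)
    (c1 : 1000000 * (n * p ^ 4 * (Real.log n) ^ 4) ≤ 1)
    (c2 : 1000000 * (p * (Real.log n) ^ 8) ≤ 1) :
    pr p (fun ω => ¬ gr ω ∈ {G : SimpleGraph (Fin n) |
      1 / 750 * order n p ≤ cliqueChromaticNumber G ∧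
      (cliqueChromaticNumber G : ℝ) ≤ 67 * order n p}) ≤ 12 / n := by
  have hn0 : (0:ℝ) < n := by
    by_contra h
    have : (n:ℝ) = 0 := le_antisymm (not_lt.1 h) (by positivity)
    rw [this, Real.log_zero] at hlog
    norm_num at hlog
  have hn0' : 0 < n := by exact_mod_cast hn0
  have : Nonempty (Fin n) := ⟨⟨0, hn0'⟩⟩
  have hV : (n:ℝ) = Fintype.card (Fin n) := by rw [Fintype.card_fin]
  have hw1 : (n : ℝ) ^ (1 / 6 : ℝ) = Real.exp (Real.log n / 6) := by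
    rw [Real.rpow_def_of_pos hn0]
    congr 1; ring
  have hw2 : (n : ℝ) ^ (1 / 3 : ℝ) = (Real.exp (Real.log n / 6)) ^ 2 := by
    rw [Real.rpow_def_of_pos hn0, ← Real.exp_nat_mul]
    congr 1; push_cast; ring
  rw [hw1] at hw
  set x : ℝ := (n : ℝ) ^ (1 / 3 : ℝ) * p with hxdef
  have hx' : x = (Real.exp (Real.log n / 6)) ^ 2 * p := by rw [hxdef, hw2]
  set M : ℝ := max (1 / 6 * Real.log n - 1 / 2 * (n * p ^ 3)) (Real.log (2 + x)) with hM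
  have hM0 : 0 ≤ M := le_trans (Real.log_nonneg (by linarith)) (le_max_right _ _)
  have horder : order n p = 1 / p * M := rfl
  have ho0 : 0 ≤ 1 / 750 * order n p := by rw [horder]; positivity
  have hlow := lower_q2 (V := Fin n) (k := ⌊1 / 750 * order n p⌋₊) hV hp0 hlog rfl rfl hw hx' hx
    c1 c2 hM ((Nat.floor_le ho0).trans (le_of_eq (by rw [horder])))
  have hup := upper_q2 (V := Fin n) hV hp0 hlog rfl rfl hw hx' hx c1 c2 hM
  rw [← horder] at hup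
  have h0 : 0 ≤ p := hp0.le
  have h1 : p ≤ 1 := by
    have h8 : (1:ℝ) ≤ (Real.log n) ^ 8 := one_le_pow₀ (by linarith)
    nlinarith
  have h12 : (12:ℝ) / n = 5 / n + 7 / n := by ring
  rw [h12]
  refine le_trans (pr_mono h0 h1 fun ω hω => ?_) ((pr_or_le h0 h1 _ _).trans
    (add_le_add hlow hup))
  by_contra hcon
  rw [not_or, not_not] at hcon
  obtain ⟨hA, hB⟩ := hcon
  apply hω
  refine ⟨?_, hB⟩
  have h9 : ⌊1 / 750 * order n p⌋₊ < cliqueChromaticNumber (gr ω) := by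
    by_contra h
    exact hA (exists_colouring_of_cliqueChromaticNumber_le (not_lt.1 h))
  have h10 := Nat.lt_floor_add_one (1 / 750 * order n p)
  have h11 : ((⌊1 / 750 * order n p⌋₊ : ℕ) : ℝ) + 1 ≤ cliqueChromaticNumber (gr ω) := by
    exact_mod_cast h9
  linarith

/-- **Answer to Q2.** There are absolute constants `0 < c`, `0 < C` such that for every `ε > 0`
and every sequence `p = p(n)` with `(1/3) n^{-1/3} ≤ p ≤ n^{-1/4-ε}` for all large `n`, whp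
`c f(n,p) ≤ χ_c(G_{n,p}) ≤ C f(n,p)`, where
`f(n,p) = p⁻¹ max ( (1/6) log n - (1/2) n p³ , log (2 + n^{1/3} p) )`. -/
theorem result : ∃ c C : ℝ, 0 < c ∧ 0 < C ∧ ∀ ε : ℝ, 0 < ε → ∀ p : ℕ → unitInterval,
    (∀ᶠ n : ℕ in atTop, 1 / 3 * (n : ℝ) ^ (-(1 / 3) : ℝ) ≤ (p n : ℝ) ∧
      (p n : ℝ) ≤ (n : ℝ) ^ (-(1 / 4) - ε)) →
    Tendsto (fun n : ℕ => (SimpleGraph.binomialRandom (Fin n) (p n))
      {G : SimpleGraph (Fin n) | c * order n (p n) ≤ cliqueChromaticNumber G ∧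
        (cliqueChromaticNumber G : ℝ) ≤ C * order n (p n)}) atTop (𝓝 1) := by
  refine ⟨1 / 750, 67, by norm_num, by norm_num, ?_⟩
  intro ε hε p hp
  apply tendsto_one_of_pr_le p _ 12
  have e2 := ev_log_le 2 (1 / 6) 3 (by norm_num) (by norm_num)
  have e3 := ev_log_le 4 (4 * ε) 1000000 (by positivity) (by norm_num)
  have e4 := ev_log_le 8 (1 / 4) 1000000 (by norm_num) (by norm_num)
  filter_upwards [hp, ev_log_ge 30000, e2, e3, e4, eventually_ge_atTop 1] with n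
    ⟨hp1, hp2⟩ hlog e2 e3 e4 hn1
  have hn1' : (1:ℝ) ≤ n := by exact_mod_cast hn1
  have hn0 : (0:ℝ) < n := by linarith
  have hp0 : 0 < (p n : ℝ) := lt_of_lt_of_le (by positivity) hp1
  have hlog0 : 0 ≤ Real.log n := by linarith
  have n2 : (Real.log n) ^ (2 : ℝ) = (Real.log n) ^ 2 := by
    rw [← Real.rpow_natCast]; norm_num
  have n4 : (Real.log n) ^ (4 : ℝ) = (Real.log n) ^ 4 := by
    rw [← Real.rpow_natCast]; norm_num
  have n8 : (Real.log n) ^ (8 : ℝ) = (Real.log n) ^ 8 := by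
    rw [← Real.rpow_natCast]; norm_num
  rw [n2] at e2
  rw [n4] at e3
  rw [n8] at e4
  apply core hp0 hlog e2
  · -- x ≥ 1/3
    have h1 : (n:ℝ) ^ (1 / 3 : ℝ) * (1 / 3 * (n : ℝ) ^ (-(1 / 3) : ℝ)) ≤
        (n:ℝ) ^ (1 / 3 : ℝ) * (p n : ℝ) := by gcongr
    have h2 : (n:ℝ) ^ (1 / 3 : ℝ) * (1 / 3 * (n : ℝ) ^ (-(1 / 3) : ℝ)) = 1 / 3 := by
      have h3 : (n:ℝ) ^ (1 / 3 : ℝ) * (n : ℝ) ^ (-(1 / 3) : ℝ) = 1 := by
        rw [← Real.rpow_add hn0]; norm_num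
      calc (n:ℝ) ^ (1 / 3 : ℝ) * (1 / 3 * (n : ℝ) ^ (-(1 / 3) : ℝ)) =
            1 / 3 * ((n:ℝ) ^ (1 / 3 : ℝ) * (n : ℝ) ^ (-(1 / 3) : ℝ)) := by ring
        _ = 1 / 3 := by rw [h3]; norm_num
    rw [h2] at h1
    exact h1
  · -- c1
    have h1 : (p n : ℝ) ^ 4 ≤ ((n:ℝ) ^ (-(1 / 4) - ε : ℝ)) ^ 4 := by gcongr
    have h2 : ((n:ℝ) ^ (-(1 / 4) - ε : ℝ)) ^ 4 = (n:ℝ) ^ (-1 - 4 * ε : ℝ) := by
      rw [← Real.rpow_natCast, ← Real.rpow_mul hn0.le]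
      congr 1; push_cast; ring
    rw [h2] at h1
    have h3 : (n:ℝ) * (n:ℝ) ^ (-1 - 4 * ε : ℝ) * (n:ℝ) ^ (4 * ε) = 1 := by
      nth_rewrite 1 [← Real.rpow_one (n:ℝ)]
      rw [← Real.rpow_add hn0, ← Real.rpow_add hn0]
      have : (1 + (-1 - 4 * ε) + 4 * ε : ℝ) = 0 := by ring
      rw [this, Real.rpow_zero]
    calc 1000000 * ((n:ℝ) * (p n : ℝ) ^ 4 * (Real.log n) ^ 4)
        = (n:ℝ) * (p n : ℝ) ^ 4 * (1000000 * (Real.log n) ^ 4) := by ring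
      _ ≤ (n:ℝ) * (n:ℝ) ^ (-1 - 4 * ε : ℝ) * (n:ℝ) ^ (4 * ε) := by gcongr
      _ = 1 := h3
      _ ≤ 1 := le_rfl
  · -- c2
    have h1 : (p n : ℝ) ≤ (n:ℝ) ^ (-(1 / 4) : ℝ) :=
      hp2.trans (Real.rpow_le_rpow_of_exponent_le hn1' (by linarith))
    calc 1000000 * ((p n : ℝ) * (Real.log n) ^ 8)
        = (p n : ℝ) * (1000000 * (Real.log n) ^ 8) := by ring
      _ ≤ (n:ℝ) ^ (-(1 / 4) : ℝ) * (n:ℝ) ^ (1 / 4 : ℝ) := by gcongr
      _ = 1 := by rw [← Real.rpow_add hn0]; norm_num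
      _ ≤ 1 := le_rfl

end Pool.Agent.Results.MP_21207b_pr.OrderNearOneThird
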