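import Pool.Agent.Helper96.UpperQ1
import Pool.Agent.Helper96.Asym

open Finset MeasureTheory Filter Topology

namespace Pool.Agent.Results.MP_21207b_pr.OrderNearTwoFifths

open Pool.Agent.Helper96

/-- The order of magnitude `f(n,p) = p⁻¹ log(1 + n p^{5/2} / √(log n))`. -/
noncomputable def order (n : ℕ) (p : ℝ) : ℝ :=
  1 / p * Real.log (1 + n * p ^ (5 / 2 : ℝ) / Real.sqrt (Real.log n))

/-- For fixed `n`, `p` in the range the failure probability is at most `14/n`. -/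
theorem core {n : ℕ} {p : ℝ} (hp0 : 0 < p) (hlog : 100 ≤ Real.log n)
    (c2 : p * Real.log n ≤ 1 / 900) (c3 : n * p ^ 3 ≤ 1 / 20000)
    (c4 : n * p ^ (7 / 2 : ℝ) * (Real.log n) ^ (7 / 2 : ℝ) ≤ 1 / 1000)
    (c5 : 4 * Real.log n ≤ n * p ^ 2) (c6 : Real.log n ≤ Real.sqrt n / 20)
    (c7 : (n : ℝ) ^ (1 / 5 : ℝ) ≤ 1 / (2 * p))
    (c8 : (n : ℝ) ^ (1 / 5 : ℝ) ≤ n * p ^ (3 / 2 : ℝ) / (2 * Real.sqrt (Real.log n))) :
    pr p (fun ω => ¬ gr ω ∈ {G : SimpleGraph (Fin n) |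
      1 / 50 * order n p ≤ cliqueChromaticNumber G ∧
      (cliqueChromaticNumber G : ℝ) ≤ 131 * order n p}) ≤ 14 / n := by
  have hn0 : (0:ℝ) < n := by
    by_contra h
    have : (n:ℝ) = 0 := le_antisymm (not_lt.1 h) (by positivity)
    rw [this, Real.log_zero] at hlog
    norm_num at hlog
  have hn0' : 0 < n := by exact_mod_cast hn0
  have : Nonempty (Fin n) := ⟨⟨0, hn0'⟩⟩
  set q : ℝ := Real.sqrt p with hq
  set L : ℝ := Real.sqrt (Real.log n) with hL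
  have hq0 : 0 < q := Real.sqrt_pos.2 hp0
  have hq2 : q ^ 2 = p := Real.sq_sqrt hp0.le
  have hL2 : L ^ 2 = Real.log n := Real.sq_sqrt (by linarith)
  have hL10 : 10 ≤ L := by
    rw [hL]
    apply Real.le_sqrt_of_sq_le
    linarith
  have hpow : ∀ (x : ℝ) (k : ℕ), 0 ≤ x → x ^ ((k:ℝ) / 2) = (Real.sqrt x) ^ k := by
    intro x k hx
    rw [Real.sqrt_eq_rpow, ← Real.rpow_natCast, ← Real.rpow_mul hx]
    congr 1; ring
  have hp52 : p ^ (5 / 2 : ℝ) = q ^ 5 := by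
    have := hpow p 5 hp0.le; push_cast at this; exact this
  have hp72 : p ^ (7 / 2 : ℝ) = q ^ 7 := by
    have := hpow p 7 hp0.le; push_cast at this; exact this
  have hp32 : p ^ (3 / 2 : ℝ) = q ^ 3 := by
    have := hpow p 3 hp0.le; push_cast at this; exact this
  have hl72 : (Real.log n) ^ (7 / 2 : ℝ) = L ^ 7 := by
    have := hpow (Real.log n) 7 (by linarith); push_cast at this; exact this
  rw [hp72, hl72] at c4
  rw [hp32] at c8
  set y : ℝ := n * q ^ 5 / L with hy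
  have hL0 : 0 < L := by linarith
  have hy0 : 0 < y := by rw [hy]; positivity
  have horder : order n p = 1 / q ^ 2 * Real.log (1 + y) := by
    unfold order
    rw [hp52, hq2]
  have hqL : q * L ≤ 1 / 30 := by
    have h1 : (q * L) ^ 2 ≤ (1 / 30) ^ 2 := by
      rw [mul_pow, hq2, hL2]
      linarith
    exact le_of_sq_le_sq h1 (by norm_num)
  have hV : (n:ℝ) = Fintype.card (Fin n) := by rw [Fintype.card_fin]
  have h5 : Real.exp (L ^ 2 / 5) ≤ y / (1 + y) / q ^ 2 := by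
    have h6 : Real.exp (L ^ 2 / 5) = (n:ℝ) ^ (1 / 5 : ℝ) := by
      rw [Real.rpow_def_of_pos hn0, hL2]
      congr 1; ring
    rw [h6]
    rcases le_total 1 y with h | h
    · refine c7.trans ?_
      rw [hq2, div_div, div_le_div_iff₀ (by positivity) (by positivity)]
      nlinarith
    · refine c8.trans ?_
      have h7 : (n:ℝ) * q ^ 3 / (2 * L) = y / 2 / q ^ 2 := by rw [hy]; field_simp
      rw [h7]
      refine div_le_div_of_nonneg_right ?_ (by positivity)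
      rw [div_le_div_iff₀ (by norm_num) (by positivity)]
      nlinarith
  have hlow := lower_q1_finite (V := Fin n) (n := n) (L := L) (q := q) (y := y)
    (k := ⌊1 / 50 * order n p⌋₊) hV hq0 hL10 hL2 hqL rfl
    (by
      have : (n:ℝ) * q ^ 6 = n * p ^ 3 := by rw [← hq2]; ring
      rw [this]; exact c3) c4
    (by
      have : (n:ℝ) * q ^ 4 = n * p ^ 2 := by rw [← hq2]; ring
      rw [this, hL2]; linarith)
    (by rw [hL2]; exact c6)
    (by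
      have h8 : 0 ≤ 1 / 50 * order n p := by
        rw [horder]
        have := Real.log_nonneg (x := 1 + y) (by linarith)
        positivity
      refine (Nat.floor_le h8).trans (le_of_eq ?_)
      rw [horder]; ring)
  have hup := upper_q1_finite (V := Fin n) (n := n) (L := L) (q := q) (y := y) hV hq0 hL10 hL2
    hqL rfl
    (by
      have : (n:ℝ) * q ^ 4 = n * p ^ 2 := by rw [← hq2]; ring
      rw [this, hL2]; exact c5) h5
  rw [hq2] at hlow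
  rw [← horder] at hup
  rw [hq2] at hup
  have h0 : 0 ≤ p := hp0.le
  have h1 : p ≤ 1 := by nlinarith
  have h14 : (14:ℝ) / n = 4 / n + 10 / n := by ring
  rw [h14]
  refine le_trans (pr_mono h0 h1 fun ω hω => ?_) ((pr_or_le h0 h1 _ _).trans
    (add_le_add hlow hup))
  by_contra hcon
  rw [not_or, not_not] at hcon
  obtain ⟨hA, hB⟩ := hcon
  apply hω
  refine ⟨?_, hB⟩
  have h9 : ⌊1 / 50 * order n p⌋₊ < cliqueChromaticNumber (gr ω) := by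
    by_contra h
    exact hA (exists_colouring_of_cliqueChromaticNumber_le (not_lt.1 h))
  have h10 := Nat.lt_floor_add_one (1 / 50 * order n p)
  have h11 : ((⌊1 / 50 * order n p⌋₊ : ℕ) : ℝ) + 1 ≤ cliqueChromaticNumber (gr ω) := by
    exact_mod_cast h9
  linarith

/-- **Answer to Q1.** There are absolute constants `0 < c`, `0 < C` such that for every `ε > 0`
and every sequence `p = p(n)` with `n^{-1/2+ε} ≤ p ≤ n^{-1/3-ε}` for all large `n`, whp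
`c f(n,p) ≤ χ_c(G_{n,p}) ≤ C f(n,p)`, where `f(n,p) = p⁻¹ log(1 + n p^{5/2} / √(log n))`. -/
theorem result : ∃ c C : ℝ, 0 < c ∧ 0 < C ∧ ∀ ε : ℝ, 0 < ε → ∀ p : ℕ → unitInterval,
    (∀ᶠ n : ℕ in atTop, (n : ℝ) ^ (-(1 / 2) + ε) ≤ (p n : ℝ) ∧
      (p n : ℝ) ≤ (n : ℝ) ^ (-(1 / 3) - ε)) →
    Tendsto (fun n : ℕ => (SimpleGraph.binomialRandom (Fin n) (p n))
      {G : SimpleGraph (Fin n) | c * order n (p n) ≤ cliqueChromaticNumber G ∧
        (cliqueChromaticNumber G : ℝ) ≤ C * order n (p n)}) atTop (𝓝 1) := by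
  refine ⟨1 / 50, 131, by norm_num, by norm_num, ?_⟩
  intro ε hε p hp
  apply tendsto_one_of_pr_le p _ 14
  have e2 := ev_log_le 1 (1 / 3) 900 (by norm_num) (by norm_num)
  have e3 := ev_const_le (3 * ε) 20000 (by positivity)
  have e4 := ev_log_le (7 / 2) (1 / 6) 1000 (by norm_num) (by norm_num)
  have e5 := ev_log_le 1 (2 * ε) 4 (by positivity) (by norm_num)
  have e6 := ev_log_le 1 (1 / 2) 20 (by norm_num) (by norm_num)
  have e7 := ev_const_le (2 / 15) 2 (by norm_num)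
  have e8 := ev_log_le (1 / 2) (1 / 20) 2 (by norm_num) (by norm_num)
  filter_upwards [hp, ev_log_ge 100, e2, e3, e4, e5, e6, e7, e8, eventually_ge_atTop 1] with n
    ⟨hp1, hp2⟩ hlog e2 e3 e4 e5 e6 e7 e8 hn1
  have hn1' : (1:ℝ) ≤ n := by exact_mod_cast hn1
  have hn0 : (0:ℝ) < n := by linarith
  have hp0 : 0 < (p n : ℝ) := lt_of_lt_of_le (by positivity) hp1
  have hlog0 : 0 ≤ Real.log n := by linarith
  -- exponent manipulations
  have hp2' : (p n : ℝ) ≤ (n:ℝ) ^ (-(1 / 3) : ℝ) :=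
    hp2.trans (Real.rpow_le_rpow_of_exponent_le hn1' (by linarith))
  have hp1' : (n:ℝ) ^ (-(1 / 2) : ℝ) ≤ (p n : ℝ) :=
    le_trans (Real.rpow_le_rpow_of_exponent_le hn1' (by linarith)) hp1
  apply core hp0 hlog
  · -- c2
    rw [Real.rpow_one] at e2
    have h1 : (p n : ℝ) * Real.log n ≤ (n:ℝ) ^ (-(1 / 3) : ℝ) * ((n:ℝ) ^ (1 / 3 : ℝ) / 900) := by
      have : Real.log n ≤ (n:ℝ) ^ (1 / 3 : ℝ) / 900 := by linarith
      gcongr
    refine h1.trans (le_of_eq ?_)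
    rw [mul_div_assoc', ← Real.rpow_add hn0]
    norm_num
  · -- c3
    have h1 : (p n : ℝ) ^ 3 ≤ ((n:ℝ) ^ (-(1 / 3) - ε : ℝ)) ^ 3 := by gcongr
    have h2 : ((n:ℝ) ^ (-(1 / 3) - ε : ℝ)) ^ 3 = (n:ℝ) ^ (-1 - 3 * ε : ℝ) := by
      rw [← Real.rpow_natCast, ← Real.rpow_mul hn0.le]
      congr 1; push_cast; ring
    rw [h2] at h1
    calc (n:ℝ) * (p n : ℝ) ^ 3 ≤ n * (n:ℝ) ^ (-1 - 3 * ε : ℝ) := by gcongr
      _ = (n:ℝ) ^ (-(3 * ε) : ℝ) := by
          nth_rewrite 1 [← Real.rpow_one (n:ℝ)]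
          rw [← Real.rpow_add hn0]
          congr 1; ring
      _ = ((n:ℝ) ^ (3 * ε : ℝ))⁻¹ := Real.rpow_neg hn0.le _
      _ ≤ 1 / 20000 := by
          rw [one_div]
          exact inv_anti₀ (by norm_num) e3
  · -- c4
    have h1 : (p n : ℝ) ^ (7 / 2 : ℝ) ≤ ((n:ℝ) ^ (-(1 / 3) : ℝ)) ^ (7 / 2 : ℝ) := by gcongr
    have h2 : ((n:ℝ) ^ (-(1 / 3) : ℝ)) ^ (7 / 2 : ℝ) = (n:ℝ) ^ (-(7 / 6) : ℝ) := by
      rw [← Real.rpow_mul hn0.le]
      norm_num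
    rw [h2] at h1
    have h3 : (Real.log n) ^ (7 / 2 : ℝ) ≤ (n:ℝ) ^ (1 / 6 : ℝ) / 1000 := by linarith
    calc (n:ℝ) * (p n : ℝ) ^ (7 / 2 : ℝ) * (Real.log n) ^ (7 / 2 : ℝ)
        ≤ n * (n:ℝ) ^ (-(7 / 6) : ℝ) * ((n:ℝ) ^ (1 / 6 : ℝ) / 1000) := by
          gcongr
      _ = 1 / 1000 := by
          have h4 : (n:ℝ) * (n:ℝ) ^ (-(7 / 6) : ℝ) * (n:ℝ) ^ (1 / 6 : ℝ) = 1 := by
            nth_rewrite 1 [← Real.rpow_one (n:ℝ)]
            rw [← Real.rpow_add hn0, ← Real.rpow_add hn0]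
            norm_num
          rw [mul_div_assoc', h4]
  · -- c5
    rw [Real.rpow_one] at e5
    refine e5.trans ?_
    have h1 : ((n:ℝ) ^ (-(1 / 2) + ε : ℝ)) ^ 2 ≤ (p n : ℝ) ^ 2 := by gcongr
    have h2 : ((n:ℝ) ^ (-(1 / 2) + ε : ℝ)) ^ 2 = (n:ℝ) ^ (-1 + 2 * ε : ℝ) := by
      rw [← Real.rpow_natCast, ← Real.rpow_mul hn0.le]
      congr 1; push_cast; ring
    rw [h2] at h1
    calc (n:ℝ) ^ (2 * ε : ℝ) = n * (n:ℝ) ^ (-1 + 2 * ε : ℝ) := by
          nth_rewrite 2 [← Real.rpow_one (n:ℝ)]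
          rw [← Real.rpow_add hn0]
          congr 1; ring
      _ ≤ n * (p n : ℝ) ^ 2 := by gcongr
  · -- c6
    rw [Real.rpow_one, ← Real.sqrt_eq_rpow] at e6
    linarith
  · -- c7
    have h1 : (n:ℝ) ^ (1 / 3 : ℝ) ≤ 1 / (p n : ℝ) := by
      rw [le_div_iff₀ hp0]
      calc (n:ℝ) ^ (1 / 3 : ℝ) * (p n : ℝ) ≤ (n:ℝ) ^ (1 / 3 : ℝ) * (n:ℝ) ^ (-(1 / 3) : ℝ) := by
            gcongr
        _ = 1 := by rw [← Real.rpow_add hn0]; norm_num
    have h2 : (n:ℝ) ^ (1 / 5 : ℝ) * 2 ≤ (n:ℝ) ^ (1 / 3 : ℝ) := by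
      calc (n:ℝ) ^ (1 / 5 : ℝ) * 2 ≤ (n:ℝ) ^ (1 / 5 : ℝ) * (n:ℝ) ^ (2 / 15 : ℝ) := by gcongr
        _ = (n:ℝ) ^ (1 / 3 : ℝ) := by rw [← Real.rpow_add hn0]; norm_num
    have h3 : 1 / (2 * (p n : ℝ)) = 1 / (p n : ℝ) / 2 := by field_simp
    rw [h3]
    linarith
  · -- c8
    have h1 : ((n:ℝ) ^ (-(1 / 2) : ℝ)) ^ (3 / 2 : ℝ) ≤ (p n : ℝ) ^ (3 / 2 : ℝ) := by gcongr
    have h2 : ((n:ℝ) ^ (-(1 / 2) : ℝ)) ^ (3 / 2 : ℝ) = (n:ℝ) ^ (-(3 / 4) : ℝ) := by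
      rw [← Real.rpow_mul hn0.le]
      norm_num
    rw [h2] at h1
    have hs : 0 < Real.sqrt (Real.log n) := Real.sqrt_pos.2 (by linarith)
    rw [← Real.sqrt_eq_rpow] at e8
    rw [le_div_iff₀ (by positivity)]
    calc (n:ℝ) ^ (1 / 5 : ℝ) * (2 * Real.sqrt (Real.log n))
        ≤ (n:ℝ) ^ (1 / 5 : ℝ) * (n:ℝ) ^ (1 / 20 : ℝ) := by gcongr
      _ = n * (n:ℝ) ^ (-(3 / 4) : ℝ) := by
          nth_rewrite 3 [← Real.rpow_one (n:ℝ)]
          rw [← Real.rpow_add hn0, ← Real.rpow_add hn0]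
          norm_num
      _ ≤ n * (p n : ℝ) ^ (3 / 2 : ℝ) := by gcongr

end Pool.Agent.Results.MP_21207b_pr.OrderNearTwoFifths
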