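import Pool.Agent.Results.MP_21207b_pr.OrderNearTwoFifths
import Pool.Agent.Results.MP_21207b_pr.OrderNearOneThird

open Finset MeasureTheory Filter Topology

namespace Pool.Agent.Results.MP_21207b_pr.ThetaBothRanges

open Pool.Agent.Helper96

/-- **Answer to Q1 and Q2 together.** The whp order of magnitude of the clique chromatic number of
the binomial random graph in a full polynomial neighbourhood of `n^{-2/5}` (Q1), and for
`(1/3) n^{-1/3} ≤ p ≤ n^{-1/4-ε}` (Q2). -/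
theorem result :
    (∃ c C : ℝ, 0 < c ∧ 0 < C ∧ ∀ ε : ℝ, 0 < ε → ∀ p : ℕ → unitInterval,
      (∀ᶠ n : ℕ in atTop, (n : ℝ) ^ (-(1 / 2) + ε) ≤ (p n : ℝ) ∧
        (p n : ℝ) ≤ (n : ℝ) ^ (-(1 / 3) - ε)) →
      Tendsto (fun n : ℕ => (SimpleGraph.binomialRandom (Fin n) (p n))
        {G : SimpleGraph (Fin n) |
          c * OrderNearTwoFifths.order n (p n) ≤ cliqueChromaticNumber G ∧
          (cliqueChromaticNumber G : ℝ) ≤ C * OrderNearTwoFifths.order n (p n)})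
        atTop (𝓝 1)) ∧
    (∃ c C : ℝ, 0 < c ∧ 0 < C ∧ ∀ ε : ℝ, 0 < ε → ∀ p : ℕ → unitInterval,
      (∀ᶠ n : ℕ in atTop, 1 / 3 * (n : ℝ) ^ (-(1 / 3) : ℝ) ≤ (p n : ℝ) ∧
        (p n : ℝ) ≤ (n : ℝ) ^ (-(1 / 4) - ε)) →
      Tendsto (fun n : ℕ => (SimpleGraph.binomialRandom (Fin n) (p n))
        {G : SimpleGraph (Fin n) |
          c * OrderNearOneThird.order n (p n) ≤ cliqueChromaticNumber G ∧
          (cliqueChromaticNumber G : ℝ) ≤ C * OrderNearOneThird.order n (p n)})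
        atTop (𝓝 1)) :=
  ⟨OrderNearTwoFifths.result, OrderNearOneThird.result⟩

end Pool.Agent.Results.MP_21207b_pr.ThetaBothRanges
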